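import Mathlib
import Pool.Agent.TH170.GS.Main
import Pool.Agent.Y1.KN.All
import Pool.Agent.Y1.KN.Use
import Pool.Agent.TH170.GS.TB
import Pool.Agent.TH117.GN.WeilEtaleDefs
import Pool.Agent.Run7.h479.SO.More

/-!
# Finiteness of `H^3_nr(X, ℚ/ℤ(2))` for the smooth projective varieties generated by abelian
# varieties over finite fields: almost all slope types of all CM fields with few CM subfields, and
# of all CM fields whose degree has a large prime factor

Over an algebraic closure of the field with `p` elements each abelian variety is isogenous to the
reduction of an abelian variety of CM type (Honda, Tate). So an abelian variety over the field with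
`p ^ a` elements is modelled by `RedAV`: a finite product of CM types `(E i, Φ i)` with Weil numbers
`π i ∈ E i` that satisfy the formula of Shimura and Taniyama; its cohomology of degree `n`, with
coefficients in an algebraically closed field `Ω`, consists of the alternating `n`-forms on `Ω ⊗
H_1`, on which the Frobenius endomorphism acts by `π`. We fix an isomorphism `ν` of the algebraic
closure of `ℚ_p` with `ℂ`; it defines a `p`-adic valuation of `ℂ`, with the value one at `p`.

Let `K i` be finitely many CM fields, of degrees `2 g i`, that are pairwise independent: for `i ≠ k`
and all complex embeddings `φ` of `K i` and `ψ` of `K k` some automorphism of `ℂ` is the identity on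
`φ (K i)` and the complex conjugation on `ψ (K k)` (this is no condition for one field). Nothing is
assumed about their Galois groups. Let `M i` be a function with nonzero integral values, all of
which divide `n i`, on the complex embeddings of `K i`, invariant under complex conjugation (the
weights). A CM type `Φ i` of `K i` (a choice of one element out of each complex conjugate pair of
embeddings; there are `2 ^ (g i)` types), `M i` and a real number `κ ≠ 0` prescribe the slopes `(a +
κ M) / 2` (at the embeddings in `Φ i`) and `(a - κ M) / 2` (outside of `Φ i`) of a Weil number in `K
i`. If `p` splits completely in `K i` then, by Honda and Tate, all slopes with rational values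
between `0` and `a` that are symmetric in this way occur for abelian varieties. The case `M = 1`, `κ
= a` is the ordinary case; the assumption on `M` says that `a / 2` is not a slope. Slopes are
rational, so integral weights `M` are no restriction.

For a family of types `Φ i` let `𝒞` (`OfTypes`) be the class of the abelian varieties `Y` each of
whose factors is supersingular or has a Frobenius endomorphism some power of which is, for some `i`,
a Weil number in `K i` with the slopes prescribed by `Φ i`, `M i` and some real number `κ i ≠ 0`
(which depends only on `Y` and `i`). So `Y` is, over an algebraic closure, isogenous to a product of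
powers of one abelian variety for each `i`, with the given slopes, and of a supersingular one.

`Homology Ω V` are data of motivic homology `M X i j = H_i^M(X, ℚ(j)) = CH_j(X, i - 2 j) ⊗ ℚ` and of
`ℓ`-adic homology `E X i j = H_i(X, ℚ_ℓ(j))` (coefficients extended to `Ω`) of schemes `X` of finite
type over a finite field (the elements of `V`), with the Frobenius and the regulator. For a family
of types let `𝒢` be the smallest class (`Generated`) of such schemes that contains those with the
homology groups of abelian varieties in `𝒞` (`IsAbelianOfTypes`), that is closed under direct
summands of finite sums of twists of motives, and that contains all of a closed subscheme `Z` of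
`X`, `X` and `X ∖ Z` if it contains two of them. It contains for instance all products of varieties
in `𝒞`, all products of curves with Jacobians in `𝒞` and of open subsets of such curves, symmetric
powers of them, and the singular and the open varieties with a stratification by such varieties.

The property `Q` (`Holds`) of a family of types: let `S` be the property of being smooth projective,
`W X n i = H^i_W(X, ℤ(n))` the Weil-étale motivic cohomology groups and `H X = H^3_nr(X, ℚ/ℤ(2))`.
Then **for all smooth projective varieties `X` in `𝒢` the group `H^3_nr(X, ℚ/ℤ(2))` is finite.** We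
use two theorems:

* (`IsWeilEtale`, Geisser and Kahn) the groups `H^i_W(X, ℤ(n))` are finitely generated if for the
  smooth projective variety `X` the conjecture of Tate and Beilinson `TB` holds;
* (`IsUnramified`, Lichtenbaum and Kahn) `H^3_nr(X, ℚ/ℤ(2))` is a torsion group and the cokernel of
  `CH^2(X) → H^4_et(X, ℤ(2))`; if `TB` holds for `X` then `H^2(X, ℚ(2)) = H^3(X, ℚ(2)) = 0` and
  `H^4_et(X, ℤ(2)) = H^4_W(X, ℤ(2))`, so that `H^3_nr(X, ℚ/ℤ(2))` is a quotient of `H^4_W(X, ℤ(2))`.

Properties of the theory of cycles that are used for the abelian varieties (`IsChow`, `IsMotivic`):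
Poincaré duality, the formal properties of correspondences, the nilpotence of homologically trivial
correspondences (Kimura), the operation of the Frobenius endomorphism on higher Chow groups, the
vanishing of the higher rational `K`-groups of a finite field (Quillen), and the algebraicity of the
classes in `Alg` (of which only products of classes of divisors matter here, theorem of Tate). The
passage from the Tate conjecture to all degrees and to the class `Generated` is due to Soulé,
Geisser, Kahn and Jannsen; it was formalized in the starting files.

A family of types is exceptional (`exceptionalFamilies ν K M`) if the property `Q` (`Holds`) is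
false for it. The theorem bounds the number of the exceptional families: it is at most `2 ^ (∑ i, g
i) * ∑ i, C * (n i) ^ 2 * rate (K i) (g i) (q i)`, with an absolute constant `C`. Here `q i` is any
prime factor of `g i` (or `q i = 1`), and `rate K g q` is `(1 + log (2 g)) ^ 16` times the smaller
of the numbers

* `W (K) / √g`, where (second part of the theorem, `WeightEstimate`) `W (K) ≤ N ^ 2 * D ^ (1 / 4)`;
  `N` is the number of the CM subfields of `K` (with `K`) and `D` is the largest degree of a CM
  subfield of `K` that is normal over `ℚ` with a nonabelian Galois group (`D = 1` if there are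
  none);
* `√g / q`.

So the exceptional types are a proportion `O (n ^ 2 * g ^ (-1 / 4) * (log g) ^ 16)` of all types of
all CM fields with a bounded number of CM subfields, and `O (n ^ 2 * g ^ (-1 / 2) * (log g) ^ 16)`
if the normal nonabelian ones have bounded degrees (for instance if `K` has no proper CM subfields
and is not normal). And they are a proportion `O (n ^ 2 * g ^ (-δ) * (log g) ^ 16)` of the types of
all CM fields `K`, with any number of subfields, whose degree is divisible by a prime number `q ≥ g
^ (1 / 2 + δ)`; for small `δ` there are such primes for about `log 2`, that is 69%, of all numbers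
`g`. Some assumption is necessary: a multiquadratic CM field of degree `2 g` has `g` imaginary
quadratic subfields, and almost all of its types are degenerate. Nothing is assumed about the Galois
groups.

The number `W (K)` (`subfieldWeight K`) is defined as follows. The automorphisms of `ℂ` act on the
rational functions on the set of the complex embeddings of `K` which change their sign under complex
conjugation. A field of definition (`fieldsOfDefinition K`) of an isotypic component of this
representation is a smallest subfield `F` of `K` such that the values of the functions in the
component depend only on the restrictions of the embeddings to `F`. It is a CM field. Then `W (K)`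
is the sum over these fields `F` of the number of the CM subfields of `F`, multiplied by `[F : ℚ] ^
(1 / 4)` if `F` is normal over `ℚ` and its Galois group is not abelian.

The proof: if the types have no relations then all relations between the Frobenius eigenvalues of
`Y` come from complex conjugate pairs and from supersingular factors, and the Tate classes are
generated by classes of divisors (`TH170/GS`, `TH117` of the starting files). The bound for the
number of the degenerate types (the counting part of the theorem) is the one of `AllCMFields`
(MP_e12fcd_ag, MP_ee618e_ag) of the starting files.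
-/

set_option autoImplicit false

namespace Pool.Agent.Results.MP_859dd5_ag.AllCMFields

open NumberField Module Pool.Agent.H204R3.CM Pool.Agent.H977R3.CM Pool.Agent.TH170
  Pool.Agent.Y1.KN

open Pool.Agent.W495.TA Pool.Agent.W495.FM

open Pool.Agent.TH117.GN (IsWeilEtale)
open Pool.Agent.Run7.h479.SO (finite_of_fg_torsion)

/-- Known properties of the groups `H X = H^3_nr(X, ℚ/ℤ(2))` for the smooth projective varieties `X`
(Lichtenbaum, Kahn): they are torsion groups, and if the conjecture of Tate and Beilinson holds for
`X` then `H X` is a quotient of the Weil-étale cohomology group `H^4_W(X, ℤ(2))`. -/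
def IsUnramified {Ω V : Type} [Field Ω] (T : Homology Ω V) (S : V → Prop)
    (W : V → ℤ → ℤ → Type) [∀ X n i, AddCommGroup (W X n i)] (H : V → Type)
    [∀ X, AddCommGroup (H X)] : Prop :=
  ∀ X, S X → (∀ b : H X, ∃ m : ℕ, 0 < m ∧ m • b = 0) ∧
    (TB T X → ∃ f : W X 2 4 →+ H X, Function.Surjective f)

/-- The groups `H^3_nr(X, ℚ/ℤ(2))` are finite for all smooth projective varieties generated by abelian
varieties with the slope types `Φ`. -/
def Holds {p : ℕ} [Fact p.Prime] (ν : PadicAlgCl p ≃+* ℂ) {I : Type} (K : I → Type)
    [∀ i, Field (K i)] (M : ∀ i, (K i →+* ℂ) → ℤ) (Φ : ∀ i, Set (K i →+* ℂ)) : Prop :=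
  ∀ (Ω : Type) [Field Ω] [IsAlgClosed Ω] [CharZero Ω] (V : Type) (T : Homology Ω V),
    IsHomology T → ∀ (S : V → Prop) (W : V → ℤ → ℤ → Type) [∀ X n i, AddCommGroup (W X n i)],
      IsWeilEtale T S W → ∀ (H : V → Type) [∀ X, AddCommGroup (H X)], IsUnramified T S W H →
        ∀ X : V, S X → Generated T (GS.IsAbelianOfTypes ν K M Φ T) X → Finite (H X)

/-- The exceptional families of CM types. -/
def exceptionalFamilies {p : ℕ} [Fact p.Prime] (ν : PadicAlgCl p ≃+* ℂ) {I : Type} (K : I → Type)
    [∀ i, Field (K i)] (M : ∀ i, (K i →+* ℂ) → ℤ) : Set (∀ i, Set (K i →+* ℂ)) :=
  {Φ | (∀ i, IsCMType (Φ i)) ∧ ¬ Holds ν K M Φ}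

theorem holds_of {p : ℕ} [Fact p.Prime] {ν : PadicAlgCl p ≃+* ℂ} {I : Type} (K : I → Type)
    [∀ i, Field (K i)] (M : ∀ i, (K i →+* ℂ) → ℤ) (Φ : ∀ i, Set (K i →+* ℂ))
    (h : ∀ Y : RedAV p ν, GS.OfTypes K M Φ Y → ∃ Z : RedAV p ν,
      TH117.BL.HasElementaryRelations Z ∧ TH117.BL.IsPowersTimesSupersingular Z Y) :
    Holds ν K M Φ := fun _ _ _ _ _ _ hT _ _ _ hW _ _ hH X hS hX =>
  have h1 := GS.tb_types h hT hX
  have ⟨h2, h3⟩ := hH X hS
  have ⟨f, hf⟩ := h3 h1
  finite_of_fg_torsion (hW X hS h1 2 4) f hf h2

/-- **The groups `H^3_nr(X, ℚ/ℤ(2))` of all smooth projective varieties generated by abelian varieties are finite,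
with almost all slope types of all CM fields with few CM subfields, and of all CM fields whose degree
has a large prime factor.** -/
theorem result :
    (∃ C : ℝ, 0 ≤ C ∧ ∀ (p : ℕ) [Fact p.Prime] (ν : PadicAlgCl p ≃+* ℂ) (I : Type) [Fintype I]
      (K : I → Type) [∀ i, Field (K i)] [∀ i, NumberField (K i)] [∀ i, IsCMField (K i)]
      (M : ∀ i, (K i →+* ℂ) → ℤ) (n g q : I → ℕ), PairwiseIndep K →
      (∀ i φ, M i (ComplexEmbedding.conjugate φ) = M i φ) → (∀ i, n i ≠ 0) →
      (∀ i φ, M i φ ∣ (n i : ℤ)) → (∀ i, finrank ℚ (K i) = 2 * g i) →
      (∀ i, q i ∣ g i ∧ (q i = 1 ∨ (q i).Prime)) →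
      ((exceptionalFamilies ν K M).ncard : ℝ) ≤
        2 ^ (∑ i, g i) * ∑ i, C * (n i : ℝ) ^ 2 * rate (K i) (g i) (q i)) ∧
    WeightEstimate := by
  obtain ⟨C, hC0, hC⟩ := slope families_holds
  refine ⟨⟨C, hC0, ?_⟩, weight_estimate_holds⟩
  intro p _ ν I _ K _ _ _ M n g q hind hM hn hMn hg hq
  exact hC p ν I K M n g q hind hM hn hMn hg hq _ fun Φ h => holds_of K M Φ h

end Pool.Agent.Results.MP_859dd5_ag.AllCMFields
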