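import Mathlib
import Pool.Agent.Run7.h8.IC.Red
import Pool.Agent.Run7.h8.IC.WConv

/-!
# Finiteness of unramified cohomology of degree three for varieties generated by abelian varieties
over finite fields with Weil numbers in CM fields with isolated cycles of automorphisms

Over an algebraic closure of the field with `p` elements each abelian variety is isogenous to the
reduction of an abelian variety of CM type (Honda, Tate). So an abelian variety over the field
with `p ^ b` elements is modelled by `RedAV`: a finite product of CM types `(E l, Φ l)` with Weil
numbers in `E l` (the Frobenius endomorphism) that satisfy the formula of Shimura and Taniyama;
its cohomology of degree `n`, with coefficients in an algebraically closed field `Ω`, consists of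
the alternating `n`-forms on `Ω ⊗ H_1`, on which the Frobenius endomorphism acts by the Weil
numbers.

Let `π i` be finitely many Weil numbers as below, and let `𝒞` (`PowersOf π`) be the class of the
abelian varieties `Y` over finite fields of characteristic `p` each of whose factors is
supersingular or has a Frobenius endomorphism some power of which is a power of `π i` for some
`i`. So `Y` is, over an algebraic closure, isogenous to a product of powers of the simple abelian
varieties `A i` of the Weil numbers `π i` (of any exponents) and of a supersingular abelian
variety; the class contains all products of powers of its members.

`Homology Ω V` are data of motivic homology `M X i j = H_i^M(X, ℚ(j)) = CH_j(X, i - 2 j) ⊗ ℚ` and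
of `ℓ`-adic homology `E X i j = H_i(X, ℚ_ℓ(j))` (coefficients extended to `Ω`) of schemes `X` of
finite type over a finite field (the elements of `V`), with the Frobenius and the regulator. Let
`𝒢` be the smallest class (`Generated`) of such schemes that contains those with the homology
groups of abelian varieties in `𝒞` (`IsAbelianPowersOf`), that is closed under direct summands of
finite sums of twists of motives, and that contains all of a closed subscheme `Z` of `X`, `X` and
`X ∖ Z` if it contains two of them. It contains for instance all products of varieties in `𝒞`,
all products of curves with Jacobians in `𝒞` and of open subsets of such curves, symmetric powers
of them, and the singular and the open varieties with a stratification by such varieties.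

The Weil numbers. Let `π i` be Weil numbers for `q = p ^ a` (algebraic integers with `π i * conj
(π i) = q`) in CM fields `K i`, finitely many. For a CM subfield `T` of `K i` let `unitNorm` be
the norm `N` of `π i` to `T`, normalised to absolute value one: `N ^ 2 / p ^ (a [K i : T])`. The
slopes of the `π i` are arbitrary. There are two assumptions.

* (`NormsSeparated`) Different embeddings of CM subfields `T i`, `T i'` of the fields (equal subfields
  if `i = i'`) never map positive powers of these numbers to the same complex number. For one
  Weil number `π` in `K` this is equivalent to `NormsGenerate`: for all CM subfields `T` of `K`,
  all positive powers of the normalised norm to `T` generate the field `T`. This condition is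
  necessary: exotic classes (for instance of Weil type) come from norms some powers of which lie
  in smaller fields.
* (`AllCyclic`) For every family of CM subfields `T i` of the `K i`, `i ∈ S ≠ ∅`, some automorphism
  `τ` of `ℂ` has an *isolated cycle* on the complex embeddings of the `T i` (`Isolated`):
  for one embedding `ψ` the cycle of `ψ` under `τ` has `n > 1` elements, where `n` is any power
  of any prime number (or `n = 2 ^ a r ^ b`, `a > 0`, `r` an odd prime number, and the cycle is
  stable under complex conjugation), and `n` does not divide the length of any other cycle,
  except for that of the complex conjugate of `ψ`. By the theorem of Chebotarev this is a
  condition on the decomposition of prime numbers: some prime number, unramified in the `T i`,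
  has exactly one prime ideal, or one pair of complex conjugate prime ideals, in the fields `T i`
  whose residue degree is divisible by `n`, and this residue degree is `n`. Alternatively the
  family may have one of the properties of the starting files: some prime number divides one of
  the discriminants of the `T i`, but its third power does not divide their product; or some
  automorphism of `ℂ` moves at least one and at most four embeddings; and for norms with only two
  slopes `third power` and `four` may be replaced by `fourth power` and `six`.

An example (second part of the theorem, `IsPrimePower`), in which the condition on the CM
subfields is not a hypothesis any more: `K` is **any** CM field of degree `2 r ^ k`, `r` a prime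
number, such that some automorphism of `ℂ` acts on the pairs of complex conjugate embeddings of
`K` as one cycle (`OneOrbit`; for instance some prime number is inert in the maximal real
subfield of `K`, or is totally ramified there and does not divide the degree). `K` may have many
CM subfields. Then the conclusion is true for every Weil number `π` in `K` with `NormsGenerate`,
and arbitrary slopes. So for abelian varieties of prime power dimension with such a Frobenius
element exotic classes can only be explained by norms to CM subfields. (For `k = 1`, prime
dimension, an automorphism as in `OneOrbit` always exists, and the result is similar to theorems
of Tankeev and Zarhin.)

The conclusion (`UnramifiedFinite`). **For all smooth projective varieties `X` in `𝒢` the group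
`H^3_nr(X, ℚ/ℤ(2))` is finite.** The theorem uses of the groups `H X = H^3_nr(X, ℚ/ℤ(2))` what is
known (Lichtenbaum, Kahn; `IsUnramified`): they are torsion groups, and if the conjecture of Tate
and Beilinson holds for `X` then `H X` is a quotient of the Weil-étale cohomology group `H^4_W(X,
ℤ(2))`, which is finitely generated if the conjecture of Tate and Beilinson holds for `X`
(Geisser, Kahn; `IsWeilEtale`). This conjecture is proved for all `X` in `𝒢`.

Properties of the theory of cycles that are used for the abelian varieties (`IsChow`,
`IsMotivic`): Poincaré duality, the formal properties of correspondences, the nilpotence of
homologically trivial correspondences (Kimura), the operation of the Frobenius endomorphism on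
higher Chow groups, the vanishing of the higher rational `K`-groups of a finite field (Quillen),
and the algebraicity of the classes in `Alg` (of which only products of classes of divisors
matter here, theorem of Tate). The passage from the Tate conjecture to all degrees and to the
class `Generated` is due to Soulé, Geisser, Kahn and Jannsen; it was formalized in the starting
files (W495, TH117). The classes `PowersOf` and `IsAbelianPowersOf` and the deduction of the
conclusion from the elementary relations are those of helper479 (Run7/h479/SO).

The starting files (MP_021685_ag OneFrobenius, MP_0fca13_ag TateRingOfPowers) have the criterion
for families of CM subfields with the alternative properties in `AllCyclic`, and with automorphisms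
which act on the pairs of conjugate embeddings as one cycle of odd *prime* length and *fix all
other embeddings*. New is that the length can be any prime power, including powers of two, or `2
^ a r ^ b`, and that the other embeddings can move, as long as the lengths of their cycles are
not divisible by `n`; so the second part of the theorem is new for all `k > 1`. The reduction to
the slopes and the descent to the CM subfields are those of the starting files
(`Pool.Agent.W527`).

The proof. A multiplicative relation between the conjugates of the `π i` gives an odd function
`c` on the embeddings of a family of CM subfields, as small as possible, such that `∑ c (z) w (g
z) = 0` for all automorphisms `g`, where `w` is the function given by the slopes of the norms. We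
apply this to `g τ ^ j`, multiply by `ζ ^ (-j)`, where `ζ` is a primitive `n`-th root of unity,
and sum over `j`. The cycles whose length is not divisible by `n` do not contribute. So for all
automorphisms `h`, `g` the product of `∑ c (h τ ^ i ψ) ζ ^ i` and of `∑ w (g τ ^ j ψ) ζ ^ (-j)`
is zero. If the first sum is zero for all `h`, then the irreducibility of the cyclotomic
polynomial gives `c (h ψ) = c (h τ ^ (n / r) ψ)` for all `h`, so that `c` comes from smaller CM
subfields, a contradiction. If not, then in the same way `w (g ψ) = w (g τ ^ (n / r) ψ)` for all
`g`, which contradicts `NormsSeparated`. So the angle rank is maximal: the only multiplicative
relations are those given by `π i * conj (π i) = q`.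
-/

set_option autoImplicit false

namespace Pool.Agent.Results.MP_859dd5_ag.IsolatedCycles

open Run7.h8.IC Run7.h8.IC.W

/-- **The groups `H^3_nr(X, ℚ/ℤ(2))` of all smooth projective varieties generated by abelian
varieties over finite fields with Weil numbers in CM fields with isolated cycles are
finite.** -/
theorem result (p : ℕ) [Fact p.Prime] (a : ℕ) (ha : 0 < a) :
    (∀ (I : Type) [Fintype I] (W : I → WeilNum p a), AllCyclic W → NormsSeparated W →
      SchemesFor p (fun i => (W i).K) (fun i => (W i).π) fun _ _ _ T X => UnramifiedFinite T X) ∧
    ∀ W : WeilNum p a, IsPrimePower W →
      SchemesFor p (fun _ : Unit => W.K) (fun _ => W.π) fun _ _ _ T X => UnramifiedFinite T X :=
  ⟨fun _ _ W h1 h2 => forFamily _ (holdsForCyclic unramifiedFor) ha W h1 h2,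
    fun W h => forOne _ (holdsForCyclic unramifiedFor) ha W h⟩

end Pool.Agent.Results.MP_859dd5_ag.IsolatedCycles
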